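import Pool.Agent.H18.GP.Final

/-!
# Every nontrivial geproci set contains three collinear points

Let `Z` be a finite set of points of `ℙ³` over `ℂ` which does not lie in a plane and whose
projection from a general point is a complete intersection.  If `Z` is not a grid, then three
points of `Z` lie on a line.

Method.  Suppose that no three points are collinear and let `τ = a + b - 3`.  For a general centre
`P` there is exactly one linear relation between the values at the projected points of the forms of
degree `τ` (Cayley-Bacharach); its coefficients are polynomials `ξ_z(P)`, homogeneous of the same
degree `d`.  Differentiating the relation in `P` gives relations of degree `τ - 1`, which are all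
known, and hence a logarithmic form: `d_z ξ_z = ξ_z M(z)`, `M(P) = d + τ + 2`.  Its poles are
simple and are planes; there are `d + τ + 2` such planes, and a plane divides `ξ_z` unless it
contains `z`.  The order of vanishing of `ξ_z` along a chord through `z` and a double counting of
the planes and chords through `z` give a contradiction unless `a = b = 2`.
-/

namespace Pool.Agent.Results.MP_ef347a_ag.CollinearTriple

open Pool.Agent.H18.GP LinearAlgebra.Projectivization

theorem result : ∀ Z : Finset (ℙ ℂ (Fin 4 → ℂ)),
    IsGeproci Z → IsNondegenerate Z → ¬ IsGrid Z → HasCollinearTriple Z :=
  fun Z hZ hn hg => Pool.Agent.H18.GP.main Z hZ hn hg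

end Pool.Agent.Results.MP_ef347a_ag.CollinearTriple
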